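import Pool.Agent.H283.HT.Stm

/-!
# HORA: horizontal lights, case A
-/

set_option autoImplicit false

namespace Pool.Agent.H333.HTX

open Pool.Agent.H283.HT

theorem shrink {K : Set P3} (hK : Body K) {p : P2} {z : ℝ} (h : ((p, z) : P3) ∈ K) {l : ℝ}
    (hl : |l| ≤ 1) : ((l • p, z) : P3) ∈ K := by
  have hR : ((-p, z) : P3) ∈ K := hK.sym _ h
  obtain ⟨h1, h2⟩ := abs_le.1 hl
  have h3 := hK.conv h hR (by linarith : (0 : ℝ) ≤ (1 + l) / 2)
    (by linarith : (0 : ℝ) ≤ (1 - l) / 2) (by ring)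
  have h4 : ((1 + l) / 2) • ((p, z) : P3) + ((1 - l) / 2) • ((-p, z) : P3) = (l • p, z) := by
    refine Prod.ext ?_ ?_
    · show ((1 + l) / 2) • p + ((1 - l) / 2) • (-p) = l • p
      module
    · show ((1 + l) / 2) * z + ((1 - l) / 2) * z = z
      ring
  rwa [h4] at h3

theorem dt_comb (ν p q : P2) (x y : ℝ) : dt ν (x • p + y • q) = x * dt ν p + y * dt ν q := by
  unfold dt
  simp only [Prod.fst_add, Prod.snd_add, Prod.smul_fst, Prod.smul_snd, smul_eq_mul]
  ring

/-- coordinates of the plane -/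
theorem coords {ν p₀ u : P2} (hν : ν ≠ 0) (hu : u ≠ 0) (hu0 : dt ν u = 0)
    {p : P2} {x : ℝ} (hx : dt ν p = x * dt ν p₀) :
    p = x • p₀ + (dt u (p - x • p₀) / dt u u) • u := by
  have hU : 0 < dt u u := by
    unfold dt
    have h1 : u.1 ≠ 0 ∨ u.2 ≠ 0 := by
      by_contra hcon
      push Not at hcon
      exact hu (Prod.ext hcon.1 hcon.2)
    rcases h1 with h1 | h1
    · have := mul_self_pos.2 h1
      have := mul_self_nonneg u.2
      linarith
    · have := mul_self_pos.2 h1
      have := mul_self_nonneg u.1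
      linarith
  obtain ⟨r, hr⟩ : ∃ r : P2, r = p - x • p₀ := ⟨_, rfl⟩
  have hp : p = x • p₀ + r := by rw [hr]; abel
  rw [← hr]
  have hr0 : dt ν r = 0 := by
    have h1 : dt ν r = dt ν p - x * dt ν p₀ := by
      rw [hr]
      unfold dt
      simp only [Prod.fst_sub, Prod.snd_sub, Prod.smul_fst, Prod.smul_snd, smul_eq_mul]
      ring
    rw [h1, hx, sub_self]
  have hdet : u.1 * r.2 - u.2 * r.1 = 0 := by
    unfold dt at hr0 hu0
    have h1 : ν.1 ≠ 0 ∨ ν.2 ≠ 0 := by
      by_contra hcon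
      push Not at hcon
      exact hν (Prod.ext hcon.1 hcon.2)
    rcases h1 with h1 | h1
    · have h2 : ν.1 * (u.1 * r.2 - u.2 * r.1) = 0 := by
        linear_combination r.2 * hu0 - u.2 * hr0
      exact (mul_eq_zero.1 h2).resolve_left h1
    · have h2 : ν.2 * (u.1 * r.2 - u.2 * r.1) = 0 := by
        linear_combination u.1 * hr0 - r.1 * hu0
      exact (mul_eq_zero.1 h2).resolve_left h1
  have hru : r = (dt u r / dt u u) • u := by
    refine Prod.ext ?_ ?_
    · rw [Prod.smul_fst, smul_eq_mul, div_mul_eq_mul_div, eq_div_iff hU.ne']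
      unfold dt
      linear_combination (-u.2) * hdet
    · rw [Prod.smul_snd, smul_eq_mul, div_mul_eq_mul_div, eq_div_iff hU.ne']
      unfold dt
      linear_combination u.1 * hdet
  rw [← hru]
  exact hp

theorem abs_lt1 {x t : ℝ} (h0 : 0 ≤ x) (h1 : x ≤ 1) (h2 : 0 < t) (h3 : t < 1) : |x - t| < 1 := by
  rw [abs_lt]
  constructor <;> linarith

theorem abs_le1 {x t : ℝ} (h0 : 0 ≤ x) (h1 : x ≤ 1) (h2 : 0 ≤ t) (h3 : t ≤ 1) : |x - t| ≤ 1 := by
  rw [abs_le]
  constructor <;> linarith

theorem num2 {c δ x y s Y : ℝ} (h0 : 0 ≤ c * x) (hy : y ≤ Y) (hcδ : c * δ ≤ 1 / 2) (hs0 : 0 ≤ s)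
    (hs1 : s * (1 - c * δ) = y - c * x) : s ≤ 2 * Y := by
  have h1 : s * (1 / 2) ≤ s * (1 - c * δ) := mul_le_mul_of_nonneg_left (by linarith) hs0
  linarith

theorem num3 {c δ x y s Y : ℝ} (h0 : c * x ≤ 1) (hy : -Y ≤ y) (hcδ : 0 ≤ c * δ) (hs0 : 0 ≤ s)
    (hs1 : s * (1 + c * δ) = c * x - y) : s ≤ Y + 1 := by
  have h1 : s * 1 ≤ s * (1 + c * δ) := mul_le_mul_of_nonneg_left (by linarith) hs0
  linarith

theorem dt_bound {u r : P2} {b : ℝ} (h1 : |r.1| ≤ b) (h2 : |r.2| ≤ b) :
    |dt u r| ≤ (|u.1| + |u.2|) * b := by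
  unfold dt
  calc |u.1 * r.1 + u.2 * r.2| ≤ |u.1 * r.1| + |u.2 * r.2| := abs_add_le _ _
    _ = |u.1| * |r.1| + |u.2| * |r.2| := by rw [abs_mul, abs_mul]
    _ ≤ |u.1| * b + |u.2| * b := by gcongr
    _ = _ := by ring

/-- `HorLit` is invariant under the half-turn -/
theorem horLit_R (hRC : S_RC) {K : Set P3} (hK : Body K) {w w' : P2} {x : P3}
    (h : HorLit K w w' (R x)) : HorLit K w w' x := by
  obtain ⟨hr, _⟩ := hRC K hK
  have hRR : ∀ y : P3, R (R y) = y := by
    intro y
    unfold R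
    simp only [neg_neg]
  have key : ∀ v : P2, (((v, (0 : ℝ)) : P3)) ∈ C K (R x) → ((-v, (0 : ℝ)) : P3) ∈ C K x := by
    intro v hv
    have h1 := hr _ _ hv
    rw [hRR] at h1
    exact h1
  rcases h with (h | h | h | h) | ⟨x₀, hx₀, hz, x₁, hx₁, l, hl0, hl1, hx⟩
  · exact Or.inl (Or.inr (Or.inl (key _ h)))
  · have h1 := key _ h
    rw [neg_neg] at h1
    exact Or.inl (Or.inl h1)
  · exact Or.inl (Or.inr (Or.inr (Or.inr (key _ h))))
  · have h1 := key _ h
    rw [neg_neg] at h1
    exact Or.inl (Or.inr (Or.inr (Or.inl h1)))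
  · refine Or.inr ⟨R x₀, hK.sym _ hx₀, hz, R x₁, hK.sym _ hx₁, l, hl0, hl1, ?_⟩
    rw [← hRR x, hx]
    unfold R
    refine Prod.ext ?_ ?_
    · show -((1 - l) • x₀.1 + l • x₁.1) = (1 - l) • (-x₀.1) + l • (-x₁.1)
      module
    · rfl

theorem HORA_done (hSH : S_SH) (hDI : S_DI) (hLIGHT : S_LIGHT) (hRC : S_RC) : S_HORA := by
  intro K hK p₀ p₁ h0 h1 hi0 hi1 him
  obtain ⟨hD, _⟩ := hSH K hK
  obtain ⟨d1, d2, ⟨B, hB, d3⟩, _⟩ := hDI (Sh K) hD
  have m0 : p₀ ∈ Sh K := ⟨_, h0, rfl⟩
  have m1 : p₁ ∈ Sh K := ⟨_, h1, rfl⟩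
  have mm : (1 / 2 : ℝ) • (p₀ + p₁) ∈ Sh K := by
    have := hD.conv m0 m1 (by norm_num : (0 : ℝ) ≤ 1 / 2) (by norm_num : (0 : ℝ) ≤ 1 / 2)
      (by norm_num)
    rwa [← smul_add] at this
  obtain ⟨ν, hν, hνmax, hνpos⟩ := d2 _ mm him
  obtain ⟨M, hM⟩ : ∃ M : ℝ, M = dt ν ((1 / 2 : ℝ) • (p₀ + p₁)) := ⟨_, rfl⟩
  rw [← hM] at hνmax hνpos
  have hMeq : M = (dt ν p₀ + dt ν p₁) / 2 := by
    rw [hM, smul_add, dt_comb]
    ring
  have e0 : dt ν p₀ = M := by
    have := hνmax _ m0
    have := hνmax _ m1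
    linarith
  have e1 : dt ν p₁ = M := by
    have := hνmax _ m0
    have := hνmax _ m1
    linarith
  obtain ⟨u, c, hu, hu0, hc0, hc1, hp1⟩ : ∃ (u : P2) (c : ℝ), u ≠ 0 ∧ dt ν u = 0 ∧ 0 ≤ c ∧
      c ≤ 1 ∧ p₁ = p₀ + c • u := by
    by_cases hpp : p₁ = p₀
    · refine ⟨(-ν.2, ν.1), 0, ?_, ?_, le_rfl, zero_le_one, by rw [hpp, zero_smul, add_zero]⟩
      · intro h
        apply hν
        have h2 := congrArg Prod.fst h
        have h3 := congrArg Prod.snd h
        simp only [Prod.fst_zero, Prod.snd_zero, neg_eq_zero] at h2 h3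
        exact Prod.ext h3 h2
      · unfold dt
        ring
    · refine ⟨p₁ - p₀, 1, sub_ne_zero.2 hpp, ?_, zero_le_one, le_rfl, by rw [one_smul]; abel⟩
      have h2 : dt ν (p₁ - p₀) = dt ν p₁ - dt ν p₀ := by
        unfold dt
        simp only [Prod.fst_sub, Prod.snd_sub]
        ring
      rw [h2, e0, e1, sub_self]
  -- coordinates
  obtain ⟨Y, hY0, hco⟩ : ∃ Y : ℝ, 0 ≤ Y ∧ ∀ p ∈ Sh K, ∃ x y : ℝ, p = x • p₀ + y • u ∧
      dt ν p = x * M ∧ x ≤ 1 ∧ |y| ≤ Y := by
    have hUnn : 0 ≤ dt u u := by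
      unfold dt
      have := mul_self_nonneg u.1
      have := mul_self_nonneg u.2
      linarith
    refine ⟨(|u.1| + |u.2|) * (2 * B) / dt u u, by positivity, ?_⟩
    intro p hp
    have hx : dt ν p = dt ν p / M * M := by field_simp
    have hxle : dt ν p / M ≤ 1 := by
      rw [div_le_one hνpos]
      exact hνmax _ hp
    have hxge : -1 ≤ dt ν p / M := by
      rw [le_div_iff₀ hνpos]
      have h2 := hνmax _ (hD.sym _ hp)
      have h3 : dt ν (-p) = - dt ν p := by
        unfold dt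
        simp only [Prod.fst_neg, Prod.snd_neg]
        ring
      rw [h3] at h2
      linarith
    have hxabs : |dt ν p / M| ≤ 1 := abs_le.2 ⟨hxge, hxle⟩
    refine ⟨dt ν p / M, dt u (p - (dt ν p / M) • p₀) / dt u u, ?_, hx, hxle, ?_⟩
    · exact coords hν hu hu0 (by rw [e0]; exact hx)
    · rw [abs_div, abs_of_nonneg hUnn]
      refine div_le_div_of_nonneg_right ?_ hUnn
      obtain ⟨b1, b2⟩ := d3 p hp
      obtain ⟨b3, b4⟩ := d3 p₀ m0
      refine dt_bound ?_ ?_
      · rw [Prod.fst_sub, Prod.smul_fst, smul_eq_mul]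
        calc |p.1 - dt ν p / M * p₀.1| ≤ |p.1| + |dt ν p / M * p₀.1| := abs_sub _ _
          _ = |p.1| + |dt ν p / M| * |p₀.1| := by rw [abs_mul]
          _ ≤ B + 1 * B := by gcongr
          _ = 2 * B := by ring
      · rw [Prod.snd_sub, Prod.smul_snd, smul_eq_mul]
        calc |p.2 - dt ν p / M * p₀.2| ≤ |p.2| + |dt ν p / M * p₀.2| := abs_sub _ _
          _ = |p.2| + |dt ν p / M| * |p₀.2| := by rw [abs_mul]
          _ ≤ B + 1 * B := by gcongr
          _ = 2 * B := by ring
  obtain ⟨δ, hδ0, hδ1, hδ2⟩ : ∃ δ : ℝ, 0 < δ ∧ δ ≤ 1 / 2 ∧ 2 * δ * (Y + 1) < 1 := by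
    refine ⟨1 / (4 * (Y + 1)), by positivity, ?_, ?_⟩
    · rw [div_le_div_iff₀ (by positivity) (by norm_num)]
      nlinarith
    · have h2 : 2 * (1 / (4 * (Y + 1))) * (Y + 1) = 1 / 2 := by
        field_simp
        ring
      rw [h2]
      norm_num
  have hcδ : c * δ ≤ 1 / 2 := by nlinarith
  have hcδ0 : 0 ≤ c * δ := by positivity
  -- the light
  have L : ∀ (p v : P2) (z s₀ s₁ z₁ s₂ z₂ : ℝ), ((p, z) : P3) ∈ K → 0 < s₀ →
      p + s₀ • v ∈ interior (Sh K) → 0 ≤ s₁ → ((p + s₁ • v, z₁) : P3) ∈ K → z < z₁ →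
      0 ≤ s₂ → ((p + s₂ • v, z₂) : P3) ∈ K → z₂ < z → ((v, (0 : ℝ)) : P3) ∈ C K (p, z) := by
    intro p v z s₀ s₁ z₁ s₂ z₂ k1 k2 k3 k4 k5 k6 k7 k8 k9
    exact hLIGHT K hK p v z 0 s₀ s₁ z₁ s₂ z₂ k1 k2 k3 k4 k5 (by rw [mul_zero, add_zero]; exact k6)
      k7 k8 (by rw [mul_zero, add_zero]; exact k9)
  refine ⟨-u - δ • p₀, u - δ • p₀, ?_⟩
  -- the main claim
  have main : ∀ X ∈ K, -1 < X.2 → X.2 < 1 → 0 ≤ dt ν X.1 →
      HorLit K (-u - δ • p₀) (u - δ • p₀) X := by
    rintro ⟨p, z⟩ hX hz1 hz2 hpos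
    simp only at hz1 hz2 hpos
    have hpS : p ∈ Sh K := ⟨_, hX, rfl⟩
    obtain ⟨x, y, hp, hx, hx1, hy⟩ := hco p hpS
    have hx0 : 0 ≤ x := by
      rw [hx] at hpos
      exact nonneg_of_mul_nonneg_left hpos hνpos
    obtain ⟨hy1, hy2⟩ := abs_le.1 hy
    have hδY : δ * Y ≤ 1 / 2 := by nlinarith
    -- the points in direction `w`
    have W0 : ∀ s : ℝ, p + s • (-u - δ • p₀) = (x - δ * s) • p₀ + (y - s) • u := by
      intro s
      rw [hp]
      module
    have W1 : ∀ s : ℝ, p + s • (u - δ • p₀) = (x - δ * s) • p₀ + (y + s) • u := by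
      intro s
      rw [hp]
      module
    have hy_w : p + y • (-u - δ • p₀) = (x - δ * y) • p₀ := by
      rw [W0, sub_self, zero_smul, add_zero]
    by_cases hypos : 0 < y
    · have hlt : |x - δ * y| < 1 := by
        rw [abs_lt]
        constructor
        · nlinarith
        · nlinarith
      have hint : p + y • (-u - δ • p₀) ∈ interior (Sh K) := by
        rw [hy_w]
        exact d1 _ m0 _ hlt
      have htop : ((p + y • (-u - δ • p₀), (1 : ℝ)) : P3) ∈ K := by
        rw [hy_w]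
        exact shrink hK h0 hlt.le
      by_cases hyc : c * x ≤ y
      · -- case (2)
        have h1c : 0 < 1 - c * δ := by linarith
        obtain ⟨s, hs⟩ : ∃ s : ℝ, s = (y - c * x) / (1 - c * δ) := ⟨_, rfl⟩
        have hs0 : 0 ≤ s := by
          rw [hs]
          exact div_nonneg (by linarith) h1c.le
        have hs1 : s * (1 - c * δ) = y - c * x := by
          rw [hs]
          field_simp
        have hs2 : s ≤ 2 * Y := num2 (by positivity) hy2 hcδ hs0 hs1
        have hbot : ((p + s • (-u - δ • p₀), (-1 : ℝ)) : P3) ∈ K := by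
          have h2 : p + s • (-u - δ • p₀) = (x - δ * s) • p₁ := by
            rw [W0, hp1]
            have h3 : y - s = c * (x - δ * s) := by linear_combination -hs1
            rw [h3]
            module
          rw [h2]
          refine shrink hK h1 (abs_le1 hx0 hx1 (by positivity) ?_)
          have h4 : δ * s ≤ δ * (2 * Y) := mul_le_mul_of_nonneg_left hs2 hδ0.le
          linarith
        exact Or.inl (Or.inl (L p _ z y y 1 s (-1) hX hypos hint hypos.le htop hz2 hs0 hbot hz1))
      · -- case (4)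
        rw [not_le] at hyc
        have hcx : 0 < c * x := hypos.trans hyc
        by_cases hlow : ∃ z₂, z₂ < z ∧ ((p, z₂) : P3) ∈ K
        · obtain ⟨z₂, hz₂, hmem⟩ := hlow
          refine Or.inl (Or.inl (L p _ z y y 1 0 z₂ hX hypos hint hypos.le htop hz2 le_rfl ?_ hz₂))
          rw [zero_smul, add_zero]
          exact hmem
        · by_cases hhigh : ∃ z₁, z < z₁ ∧ ((p, z₁) : P3) ∈ K
          · obtain ⟨z₁, hz₁, hmem⟩ := hhigh
            have h1c : 0 < 1 + c * δ := by linarith
            obtain ⟨s, hs⟩ : ∃ s : ℝ, s = (c * x - y) / (1 + c * δ) := ⟨_, rfl⟩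
            have hs0 : 0 < s := by
              rw [hs]
              exact div_pos (by linarith) h1c
            have hs1 : s * (1 + c * δ) = c * x - y := by
              rw [hs]
              field_simp
            have hcx1 : c * x ≤ 1 := mul_le_one₀ hc1 hx0 hx1
            have hs2 : s ≤ Y + 1 := num3 hcx1 hy1 hcδ0 hs0.le hs1
            have hlt' : |x - δ * s| < 1 := by
              have h2 : δ * s ≤ δ * (Y + 1) := mul_le_mul_of_nonneg_left hs2 hδ0.le
              exact abs_lt1 hx0 hx1 (mul_pos hδ0 hs0) (by linarith)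
            have h2 : p + s • (u - δ • p₀) = (x - δ * s) • p₁ := by
              rw [W1, hp1]
              have h3 : y + s = c * (x - δ * s) := by linear_combination hs1
              rw [h3]
              module
            refine Or.inl (Or.inr (Or.inr (Or.inl
              (L p _ z s 0 z₁ s (-1) hX hs0 ?_ le_rfl ?_ hz₁ hs0.le ?_ hz1))))
            · rw [h2]
              exact d1 _ m1 _ hlt'
            · rw [zero_smul, add_zero]
              exact hmem
            · rw [h2]
              exact shrink hK h1 hlt'.le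
          · -- the only point over `p`
            push Not at hlow hhigh
            have hxabs : |x| ≤ 1 := abs_le.2 ⟨by linarith, hx1⟩
            have k0 := shrink hK h0 hxabs
            have k1 := shrink hK h1 hxabs
            have hl0 : 0 ≤ y / (c * x) := (div_pos hypos hcx).le
            have hl1 : y / (c * x) < 1 := (div_lt_one hcx).2 hyc
            obtain ⟨l, hl⟩ : ∃ l : ℝ, l = y / (c * x) := ⟨_, rfl⟩
            rw [← hl] at hl0 hl1
            have hlcx : l * (c * x) = y := by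
              rw [hl]
              exact div_mul_cancel₀ y hcx.ne'
            have hpt : p = (1 - l) • (x • p₀) + l • (x • p₁) := by
              rw [hp1, hp, ← hlcx]
              module
            have hmem := hK.conv k0 k1 (by linarith : (0 : ℝ) ≤ 1 - l) hl0 (by ring)
            have heq : (1 - l) • ((x • p₀, (1 : ℝ)) : P3) + l • ((x • p₁, (-1 : ℝ)) : P3) =
                (p, 1 - 2 * l) := by
              refine Prod.ext ?_ ?_
              · show (1 - l) • (x • p₀) + l • (x • p₁) = p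
                exact hpt.symm
              · show (1 - l) * 1 + l * (-1) = 1 - 2 * l
                ring
            rw [heq] at hmem
            have hz : z = 1 - 2 * l := by
              rcases lt_trichotomy z (1 - 2 * l) with h2 | h2 | h2
              · exact absurd hmem (hhigh _ h2)
              · exact h2
              · exact absurd hmem (hlow _ h2)
            refine Or.inr ⟨_, k0, rfl, _, k1, l, hl0, hl1, ?_⟩
            rw [heq, hz]
    · rw [not_lt] at hypos
      by_cases hcxy : 0 < c * x - y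
      · -- case (3)
        have h1c : 0 < 1 + c * δ := by linarith
        obtain ⟨s, hs⟩ : ∃ s : ℝ, s = (c * x - y) / (1 + c * δ) := ⟨_, rfl⟩
        have hs0 : 0 < s := by
          rw [hs]
          exact div_pos (by linarith) h1c
        have hs1 : s * (1 + c * δ) = c * x - y := by
          rw [hs]
          field_simp
        have hcx1 : c * x ≤ 1 := mul_le_one₀ hc1 hx0 hx1
        have hs2 : s ≤ Y + 1 := num3 hcx1 hy1 hcδ0 hs0.le hs1
        have hlt' : |x - δ * s| < 1 := by
          have h2 : δ * s ≤ δ * (Y + 1) := mul_le_mul_of_nonneg_left hs2 hδ0.le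
          exact abs_lt1 hx0 hx1 (mul_pos hδ0 hs0) (by linarith)
        have h2 : p + s • (u - δ • p₀) = (x - δ * s) • p₁ := by
          rw [W1, hp1]
          have h3 : y + s = c * (x - δ * s) := by linear_combination hs1
          rw [h3]
          module
        refine Or.inl (Or.inr (Or.inr (Or.inl
          (L p _ z s (-y) 1 s (-1) hX hs0 ?_ (by linarith) ?_ hz2 hs0.le ?_ hz1))))
        · rw [h2]
          exact d1 _ m1 _ hlt'
        · rw [W1, add_neg_cancel, zero_smul, add_zero]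
          have h4 : δ * (-y) ≤ δ * Y := mul_le_mul_of_nonneg_left (by linarith) hδ0.le
          have h5 : 0 ≤ δ * (-y) := mul_nonneg hδ0.le (by linarith)
          exact shrink hK h0 (abs_le1 hx0 hx1 h5 (by linarith))
        · rw [h2]
          exact shrink hK h1 hlt'.le
      · -- `y = 0` and `c x = 0`
        have hcx0 : 0 ≤ c * x := by positivity
        have hy0 : y = 0 := by linarith
        have hcx' : c * x = 0 := by linarith
        rcases mul_eq_zero.1 hcx' with hc | hxz
        · -- case (1)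
          have hpp : p₁ = p₀ := by rw [hp1, hc, zero_smul, add_zero]
          have hxabs : |x| ≤ 1 := abs_le.2 ⟨by linarith, hx1⟩
          have k0 := shrink hK h0 hxabs
          have k1 := shrink hK h1 hxabs
          refine Or.inr ⟨_, k0, rfl, _, k1, (1 - z) / 2, by linarith, by linarith, ?_⟩
          refine Prod.ext ?_ ?_
          · show p = (1 - (1 - z) / 2) • (x • p₀) + ((1 - z) / 2) • (x • p₁)
            rw [hpp, hp, hy0]
            module
          · show z = (1 - (1 - z) / 2) * 1 + (1 - z) / 2 * (-1)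
            ring
        · -- case (0)
          have hp0 : p = 0 := by rw [hp, hxz, hy0, zero_smul, zero_smul, add_zero]
          obtain ⟨s, hs0, hs⟩ : ∃ s : ℝ, 0 < s ∧ p + s • (-u - δ • p₀) ∈ interior (Sh K) := by
            have hcont : Continuous fun s : ℝ => p + s • (-u - δ • p₀) := by fun_prop
            have hopen : IsOpen ((fun s : ℝ => p + s • (-u - δ • p₀)) ⁻¹' interior (Sh K)) :=
              isOpen_interior.preimage hcont
            have h0mem : (0 : ℝ) ∈ (fun s : ℝ => p + s • (-u - δ • p₀)) ⁻¹' interior (Sh K) := by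
              show p + (0 : ℝ) • (-u - δ • p₀) ∈ interior (Sh K)
              rw [zero_smul, add_zero, hp0]
              exact hD.zero
            obtain ⟨ε, hε, hball⟩ := Metric.isOpen_iff.1 hopen 0 h0mem
            refine ⟨ε / 2, by linarith, hball ?_⟩
            rw [Metric.mem_ball, Real.dist_eq, sub_zero, abs_of_pos (by linarith)]
            linarith
          refine Or.inl (Or.inl (L p _ z s 0 1 0 (-1) hX hs0 hs le_rfl ?_ hz2 le_rfl ?_ hz1))
          · rw [zero_smul, add_zero, hp0]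
            exact hK.top
          · rw [zero_smul, add_zero, hp0]
            exact hK.bot
  intro X hX hz1 hz2
  rcases le_or_gt 0 (dt ν X.1) with h | h
  · exact main X hX hz1 hz2 h
  · refine horLit_R hRC hK (main (R X) (hK.sym _ hX) hz1 hz2 ?_)
    show 0 ≤ dt ν (-X.1)
    have h3 : dt ν (-X.1) = - dt ν X.1 := by
      unfold dt
      simp only [Prod.fst_neg, Prod.snd_neg]
      ring
    rw [h3]
    linarith

end Pool.Agent.H333.HTX
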