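import Pool.Agent.H465.CG.Stm
import Pool.Graph.R_seed8.Y773.IQ.Cl

set_option autoImplicit false
set_option linter.unusedSectionVars false

/-! # CG-6: the large sieve for ray class characters modulo `(m)`, all `m ≥ 1`
(subtask 4057 of helper465) -/

open NumberField

namespace Pool.Agent.H333.CG

open Pool.Agent.Y767 (Cls cls cls_eq cls_of_mul cls_pi cls_div bes_cls isUnit_mk)
open Pool.Agent.Y773.IQ (exists_inv exists_mem_one cop_one)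

section

variable {K : Type} [Field K] [NumberField K]

/-- nonzero ideals prime to `𝔮` -/
def Mm (𝔮 : Ideal (𝓞 K)) : Submonoid (Ideal (𝓞 K)) where
  carrier := {𝔞 | 𝔞 ≠ ⊥ ∧ IsCoprime 𝔞 𝔮}
  mul_mem' := fun ha hb => ⟨mul_ne_zero ha.1 hb.1, IsCoprime.mul_left ha.2 hb.2⟩
  one_mem' := ⟨one_ne_zero, isCoprime_one_left⟩

/-- nonzero elements congruent to one modulo `𝔮` -/
def Tm (𝔮 : Ideal (𝓞 K)) : Submonoid (𝓞 K) where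
  carrier := {x | x ≠ 0 ∧ x - 1 ∈ 𝔮}
  mul_mem' := fun {a b} ha hb => ⟨mul_ne_zero ha.1 hb.1, by
    have e : a * b - 1 = a * (b - 1) + (a - 1) := by ring
    rw [e]
    exact add_mem (Ideal.mul_mem_left _ _ hb.2) ha.2⟩
  one_mem' := ⟨one_ne_zero, by rw [sub_self]; exact Submodule.zero_mem _⟩

/-- principal ideals -/
noncomputable def pm (𝔮 : Ideal (𝓞 K)) : Tm 𝔮 →* Mm 𝔮 where
  toFun x := ⟨Ideal.span {(x : 𝓞 K)}, by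
    refine ⟨?_, cop_one x.2.2⟩
    rw [Ne, Ideal.span_singleton_eq_bot]
    exact x.2.1⟩
  map_one' := by
    apply Subtype.ext
    show Ideal.span {((1 : Tm 𝔮) : 𝓞 K)} = 1
    rw [Submonoid.coe_one, Ideal.span_singleton_one, Ideal.one_eq_top]
  map_mul' x y := by
    apply Subtype.ext
    show Ideal.span {((x * y : Tm 𝔮) : 𝓞 K)} = Ideal.span {(x : 𝓞 K)} * Ideal.span {(y : 𝓞 K)}
    rw [Ideal.span_singleton_mul_span_singleton, Submonoid.coe_mul]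

theorem pm_coe {𝔮 : Ideal (𝓞 K)} (x : Tm 𝔮) : ((pm 𝔮 x : Mm 𝔮) : Ideal (𝓞 K)) =
    Ideal.span {(x : 𝓞 K)} := rfl

instance canc (𝔮 : Ideal (𝓞 K)) : IsCancelMul (Mm 𝔮) where
  mul_left_cancel a b c h := by
    apply Subtype.ext
    have h1 : (a : Ideal (𝓞 K)) * b = a * c := congrArg Subtype.val h
    exact mul_left_cancel₀ a.2.1 h1
  mul_right_cancel a b c h := by
    apply Subtype.ext
    have h1 : (b : Ideal (𝓞 K)) * a = c * a := congrArg Subtype.val h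
    exact mul_right_cancel₀ a.2.1 h1

theorem span_ne {x : 𝓞 K} (hx : x ≠ 0) : Ideal.span {x} ≠ ⊥ := by
  rw [Ne, Ideal.span_singleton_eq_bot]
  exact hx

/-- the class of a principal ideal depends only on the generator modulo `𝔮` -/
theorem cls_congr {𝔮 : Ideal (𝓞 K)} {x y : 𝓞 K} (hx0 : x ≠ 0) (hy0 : y ≠ 0)
    (hx : IsCoprime (Ideal.span {x}) 𝔮) (hy : IsCoprime (Ideal.span {y}) 𝔮) (h : x - y ∈ 𝔮) :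
    cls (pm 𝔮) ⟨Ideal.span {x}, span_ne hx0, hx⟩ =
      cls (pm 𝔮) ⟨Ideal.span {y}, span_ne hy0, hy⟩ := by
  obtain ⟨w, hw0, hw⟩ : ∃ w : 𝓞 K, w ≠ 0 ∧ w * x - 1 ∈ 𝔮 := by
    obtain ⟨w, hw⟩ := exists_inv hx
    by_cases h0 : w = 0
    · refine ⟨1, one_ne_zero, ?_⟩
      rw [h0, zero_mul, zero_sub, neg_mem_iff] at hw
      rw [(Ideal.eq_top_iff_one 𝔮).2 hw]
      exact Submodule.mem_top
    · exact ⟨w, h0, hw⟩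
  have hw' : w * y - 1 ∈ 𝔮 := by
    have : w * y - 1 = (w * x - 1) - w * (x - y) := by ring
    rw [this]
    exact sub_mem hw (Ideal.mul_mem_left _ _ h)
  refine cls_of_mul (π := pm 𝔮) (a := ⟨w * y, mul_ne_zero hw0 hy0, hw'⟩)
    (b := ⟨w * x, mul_ne_zero hw0 hx0, hw⟩) ?_
  apply Subtype.ext
  rw [Submonoid.coe_mul, Submonoid.coe_mul, pm_coe, pm_coe,
    Ideal.span_singleton_mul_span_singleton, Ideal.span_singleton_mul_span_singleton]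
  congr 2
  ring

theorem exists_compl {𝔮 : Ideal (𝓞 K)} (𝔟 : Mm 𝔮) : ∃ (x : 𝓞 K) (𝔠 : Mm 𝔮), x ≠ 0 ∧
    x - 1 ∈ 𝔮 ∧ Ideal.span {x} = (𝔟 : Ideal (𝓞 K)) * (𝔠 : Ideal (𝓞 K)) ∧
      cls (pm 𝔮) 𝔟 * cls (pm 𝔮) 𝔠 = 1 := by
  obtain ⟨x, hx0, hx1, 𝔠, h2⟩ : ∃ x : 𝓞 K, x ≠ 0 ∧ x - 1 ∈ 𝔮 ∧ ∃ 𝔠 : Ideal (𝓞 K),
      Ideal.span {x} = (𝔟 : Ideal (𝓞 K)) * 𝔠 := by
    obtain ⟨x, 𝔠, h1, h2, h3⟩ := exists_mem_one 𝔟.2.2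
    by_cases h0 : x = 0
    · rw [h0, zero_sub, neg_mem_iff] at h1
      obtain ⟨z, hz, hz0⟩ := Submodule.exists_mem_ne_zero_of_ne_bot 𝔟.2.1
      refine ⟨z, hz0, ?_, ?_⟩
      · rw [(Ideal.eq_top_iff_one 𝔮).2 h1]
        exact Submodule.mem_top
      · exact Ideal.dvd_iff_le.mpr ((Ideal.span_singleton_le_iff_mem (𝔟 : Ideal (𝓞 K))).mpr hz)
    · exact ⟨x, h0, h1, 𝔠, h2⟩
  have h3 : IsCoprime 𝔠 𝔮 := by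
    have h4 := cop_one hx1
    rw [h2] at h4
    exact (IsCoprime.mul_left_iff.mp h4).2
  have h𝔠0 : 𝔠 ≠ ⊥ := by
    rintro rfl
    rw [← Ideal.zero_eq_bot, mul_zero, Ideal.zero_eq_bot] at h2
    exact span_ne hx0 h2
  refine ⟨x, ⟨𝔠, h𝔠0, h3⟩, hx0, hx1, h2, ?_⟩
  rw [← map_mul, ← cls_pi (pm 𝔮) ⟨x, hx0, hx1⟩]
  congr 1
  apply Subtype.ext
  rw [pm_coe, Submonoid.coe_mul]
  exact h2.symm

theorem exists_rep {𝔮 : Ideal (𝓞 K)} (c : Cls (pm 𝔮)) : ∃ 𝔞 : Mm 𝔮, cls (pm 𝔮) 𝔞 = c := by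
  obtain ⟨a, b, hab⟩ := cls_div (pm 𝔮) c
  obtain ⟨-, 𝔠, -, -, -, h⟩ := exists_compl b
  refine ⟨a * 𝔠, ?_⟩
  rw [map_mul, ← hab, mul_assoc, h, mul_one]

/-- the ideal class -/
noncomputable def cg {𝔮 : Ideal (𝓞 K)} (𝔞 : Mm 𝔮) : ClassGroup (𝓞 K) :=
  ClassGroup.mk0 ⟨(𝔞 : Ideal (𝓞 K)), mem_nonZeroDivisors_iff_ne_zero.mpr 𝔞.2.1⟩

theorem cg_eq {𝔮 : Ideal (𝓞 K)} {𝔞 𝔟 : Mm 𝔮} (h : cg 𝔞 = cg 𝔟) :
    ∃ (x' y' : 𝓞 K), x' ≠ 0 ∧ y' ≠ 0 ∧ x' - 1 ∈ 𝔮 ∧ IsCoprime (Ideal.span {y'}) 𝔮 ∧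
      Ideal.span {x'} * (𝔞 : Ideal (𝓞 K)) = Ideal.span {y'} * (𝔟 : Ideal (𝓞 K)) := by
  unfold cg at h
  rw [ClassGroup.mk0_eq_mk0_iff] at h
  obtain ⟨x, y, hx, hy, h0⟩ := h
  have h : Ideal.span {x} * (𝔞 : Ideal (𝓞 K)) = Ideal.span {y} * (𝔟 : Ideal (𝓞 K)) := h0
  obtain ⟨x', 𝔠, hx0, h1, h2, -⟩ := exists_compl 𝔟
  have h3 : Ideal.span {x} * ((𝔞 : Ideal (𝓞 K)) * 𝔠) = Ideal.span {y * x'} := by
    rw [← mul_assoc, h, mul_assoc, ← h2, Ideal.span_singleton_mul_span_singleton]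
  have h4 : y * x' ∈ Ideal.span {x} := by
    have h5 : Ideal.span {y * x'} ≤ Ideal.span {x} := by
      rw [← h3]
      exact Ideal.mul_le_left
    exact h5 (Ideal.mem_span_singleton_self _)
  obtain ⟨y', hy'⟩ := Ideal.mem_span_singleton'.mp h4
  have h6 : (𝔞 : Ideal (𝓞 K)) * 𝔠 = Ideal.span {y'} := by
    apply mul_left_cancel₀ (a := Ideal.span {x})
    · rw [Ne, Ideal.zero_eq_bot, Ideal.span_singleton_eq_bot]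
      exact hx
    · rw [h3, Ideal.span_singleton_mul_span_singleton, mul_comm x, hy']
  refine ⟨x', y', hx0, ?_, h1, ?_, ?_⟩
  · rintro rfl
    rw [zero_mul] at hy'
    exact mul_ne_zero hy hx0 hy'.symm
  · rw [← h6]
    exact IsCoprime.mul_left 𝔞.2.2 𝔠.2.2
  · rw [h2, ← h6]
    ring

theorem cls_card_le {𝔮 : Ideal (𝓞 K)} (hbot : 𝔮 ≠ ⊥) :
    Finite (Cls (pm 𝔮)) ∧
      Nat.card (Cls (pm 𝔮)) ≤ Nat.card (𝓞 K ⧸ 𝔮) * Nat.card (ClassGroup (𝓞 K)) := by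
  classical
  have : Finite (𝓞 K ⧸ 𝔮) := Ideal.finiteQuotientOfFreeOfNeBot 𝔮 hbot
  choose 𝔞 h𝔞 using exists_rep (𝔮 := 𝔮)
  obtain ⟨𝔟, h𝔟⟩ : ∃ 𝔟 : ClassGroup (𝓞 K) → Mm 𝔮, ∀ 𝔠 : Mm 𝔮, cg (𝔟 (cg 𝔠)) = cg 𝔠 := by
    refine ⟨fun C => if h : ∃ 𝔠 : Mm 𝔮, cg 𝔠 = C then h.choose else 1, fun 𝔠 => ?_⟩
    have h : ∃ 𝔠' : Mm 𝔮, cg 𝔠' = cg 𝔠 := ⟨𝔠, rfl⟩
    simp only [dif_pos h]
    exact h.choose_spec
  choose x' y' hx0 hy0 hx' hy' hxy using fun c => cg_eq (h𝔟 (𝔞 c)).symm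
  have hcls : ∀ c, c = cls (pm 𝔮) ⟨Ideal.span {y' c}, span_ne (hy0 c), hy' c⟩ *
      cls (pm 𝔮) (𝔟 (cg (𝔞 c))) := by
    intro c
    rw [← map_mul]
    have h1 : pm 𝔮 ⟨x' c, hx0 c, hx' c⟩ * 𝔞 c =
        ⟨Ideal.span {y' c}, span_ne (hy0 c), hy' c⟩ * 𝔟 (cg (𝔞 c)) := by
      apply Subtype.ext
      rw [Submonoid.coe_mul, Submonoid.coe_mul, pm_coe]
      exact hxy c
    rw [← h1, map_mul, cls_pi, one_mul, h𝔞]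
  have hinj : Function.Injective (fun c : Cls (pm 𝔮) =>
      (Ideal.Quotient.mk 𝔮 (y' c), cg (𝔞 c))) := by
    intro c c' h
    obtain ⟨h1, h2⟩ := Prod.ext_iff.mp h
    have h2' : cg (𝔞 c) = cg (𝔞 c') := h2
    have h3 : y' c - y' c' ∈ 𝔮 := (Ideal.Quotient.eq).1 h1
    rw [hcls c, hcls c', cls_congr (hy0 c) (hy0 c') (hy' c) (hy' c') h3, h2']
  have hfin := Finite.of_injective _ hinj
  refine ⟨hfin, ?_⟩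
  rw [← Nat.card_prod]
  exact Nat.card_le_card_of_injective _ hinj

/-- the character with values in the units -/
noncomputable def ch (𝔮 : Ideal (𝓞 K)) (ψ : Ideal (𝓞 K) →*₀ ℂ)
    (h : ∀ 𝔞 : Ideal (𝓞 K), 𝔞 ≠ ⊥ → (ψ 𝔞 ≠ 0 ↔ IsCoprime 𝔞 𝔮)) : Mm 𝔮 →* ℂˣ where
  toFun 𝔞 := Units.mk0 (ψ (𝔞 : Ideal (𝓞 K))) ((h _ 𝔞.2.1).2 𝔞.2.2)
  map_one' := by
    apply Units.ext
    show ψ ((1 : Mm 𝔮) : Ideal (𝓞 K)) = 1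
    rw [Submonoid.coe_one, map_one]
  map_mul' a b := by
    apply Units.ext
    show ψ ((a * b : Mm 𝔮) : Ideal (𝓞 K)) = ψ (a : Ideal (𝓞 K)) * ψ (b : Ideal (𝓞 K))
    rw [Submonoid.coe_mul, map_mul]

open Classical in
/-- the same, total -/
noncomputable def G (𝔮 : Ideal (𝓞 K)) (ψ : Ideal (𝓞 K) →*₀ ℂ) : Mm 𝔮 →* ℂˣ :=
  if h : ∀ 𝔞 : Ideal (𝓞 K), 𝔞 ≠ ⊥ → (ψ 𝔞 ≠ 0 ↔ IsCoprime 𝔞 𝔮) then ch 𝔮 ψ h else 1

theorem G_apply {𝔮 : Ideal (𝓞 K)} {ψ : Ideal (𝓞 K) →*₀ ℂ}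
    (h : ∀ 𝔞 : Ideal (𝓞 K), 𝔞 ≠ ⊥ → (ψ 𝔞 ≠ 0 ↔ IsCoprime 𝔞 𝔮)) (𝔞 : Mm 𝔮) :
    ((G 𝔮 ψ 𝔞 : ℂˣ) : ℂ) = ψ (𝔞 : Ideal (𝓞 K)) := by
  unfold G
  rw [dif_pos h]
  rfl

theorem G_inj {𝔮 : Ideal (𝓞 K)} {ψ ψ' : Ideal (𝓞 K) →*₀ ℂ}
    (h : ∀ 𝔞 : Ideal (𝓞 K), 𝔞 ≠ ⊥ → (ψ 𝔞 ≠ 0 ↔ IsCoprime 𝔞 𝔮))
    (h' : ∀ 𝔞 : Ideal (𝓞 K), 𝔞 ≠ ⊥ → (ψ' 𝔞 ≠ 0 ↔ IsCoprime 𝔞 𝔮)) (hG : G 𝔮 ψ = G 𝔮 ψ') :
    ψ = ψ' := by
  ext 𝔞
  by_cases h0 : 𝔞 = ⊥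
  · rw [h0, ← Ideal.zero_eq_bot, map_zero, map_zero]
  by_cases hc : IsCoprime 𝔞 𝔮
  · have h1 := G_apply h ⟨𝔞, h0, hc⟩
    have h2 := G_apply h' ⟨𝔞, h0, hc⟩
    rw [hG, h2] at h1
    exact h1.symm
  · have h1 : ψ 𝔞 = 0 := by
      by_contra hcon
      exact hc ((h 𝔞 h0).1 hcon)
    have h2 : ψ' 𝔞 = 0 := by
      by_contra hcon
      exact hc ((h' 𝔞 h0).1 hcon)
    rw [h1, h2]

end

/-- the square of the sum over a class -/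
theorem rhs {M C : Type} [Fintype C] [DecidableEq C] (S : Finset M) (f : M → C) (n : M → ℝ)
    (v : M → ℂ) (hv : ∀ x, ‖v x‖ ≤ n x) :
    ∑ c : C, ‖∑ x ∈ S.filter (fun x => f x = c), v x‖ ^ 2 ≤
      ∑ x ∈ S, ∑ y ∈ S.filter (fun y => f y = f x), n x * n y := by
  have h1 : ∀ c : C, ‖∑ x ∈ S.filter (fun x => f x = c), v x‖ ^ 2 ≤
      ∑ x ∈ S.filter (fun x => f x = c), ∑ y ∈ S.filter (fun y => f y = f x), n x * n y := by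
    intro c
    have h2 : ‖∑ x ∈ S.filter (fun x => f x = c), v x‖ ≤
        ∑ x ∈ S.filter (fun x => f x = c), n x :=
      (norm_sum_le _ _).trans (Finset.sum_le_sum fun x _ => hv x)
    have h3 : ∑ x ∈ S.filter (fun x => f x = c), ∑ y ∈ S.filter (fun y => f y = f x), n x * n y =
        (∑ x ∈ S.filter (fun x => f x = c), n x) * ∑ y ∈ S.filter (fun x => f x = c), n y := by
      rw [Finset.sum_mul_sum]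
      refine Finset.sum_congr rfl fun x hx => ?_
      rw [(Finset.mem_filter.1 hx).2]
    rw [h3, pow_two]
    exact mul_le_mul h2 h2 (norm_nonneg _) ((norm_nonneg _).trans h2)
  refine (Finset.sum_le_sum fun c _ => h1 c).trans (le_of_eq ?_)
  exact Finset.sum_fiberwise S f (fun x => ∑ y ∈ S.filter (fun y => f y = f x), n x * n y)

theorem sls : Pool.Agent.H465.CG.SLs := by
  classical
  intro K _ _ _ hK m hm Ψ hΨ hΨ1 hΨ2 S hS c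
  obtain ⟨𝔮, h𝔮⟩ : ∃ 𝔮 : Ideal (𝓞 K), 𝔮 = Ideal.span {(m : 𝓞 K)} := ⟨_, rfl⟩
  have hm0 : (m : 𝓞 K) ≠ 0 := by
    have : m ≠ 0 := by omega
    exact_mod_cast this
  have hbot : 𝔮 ≠ ⊥ := by
    rw [h𝔮]
    exact span_ne hm0
  rw [← h𝔮] at hΨ hΨ2
  have hrhs0 : 0 ≤ ∑ p ∈ (S ×ˢ S).filter (fun p => Pool.Agent.H465.CG.Rel m p.1 p.2),
      ‖c p.1‖ * ‖c p.2‖ := Finset.sum_nonneg fun p _ => by positivity
  rcases Ψ.eq_empty_or_nonempty with h0 | ⟨ψ₀, hψ₀⟩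
  · rw [h0, Finset.sum_empty]
    positivity
  obtain ⟨hfin, hcard⟩ := cls_card_le hbot
  have hft : Fintype (Cls (pm 𝔮)) := Fintype.ofFinite _
  -- the order of the class group
  have hq : Nat.card (𝓞 K ⧸ 𝔮) = m ^ 2 := by
    have h1 : Nat.card (𝓞 K ⧸ 𝔮) = Ideal.absNorm 𝔮 := by
      rw [Ideal.absNorm_apply, Submodule.cardQuot_apply]
    rw [h1, h𝔮, Ideal.absNorm_span_natCast, RingOfIntegers.rank, hK]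
  have hcard' : (Fintype.card (Cls (pm 𝔮)) : ℝ) ≤
      (Nat.card (ClassGroup (𝓞 K)) : ℝ) * (m : ℝ) ^ 2 := by
    rw [hq, Nat.card_eq_fintype_card] at hcard
    have h2 : (Fintype.card (Cls (pm 𝔮)) : ℝ) ≤ ((m ^ 2 * Nat.card (ClassGroup (𝓞 K)) : ℕ) : ℝ) := by
      exact_mod_cast hcard
    refine h2.trans (le_of_eq ?_)
    push_cast
    ring
  set S' : Finset (Mm 𝔮) := S.subtype (fun 𝔞 => 𝔞 ∈ Mm 𝔮) with hS'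
  have hb := bes_cls Pool.Agent.Y287.HC.t_bes (pm 𝔮) (G 𝔮 ψ₀) (Ψ.image (G 𝔮)) (by
    intro F hF x
    obtain ⟨ψ, hψ, rfl⟩ := Finset.mem_image.1 hF
    apply Units.ext
    rw [G_apply (hΨ ψ hψ), G_apply (hΨ ψ₀ hψ₀), pm_coe]
    exact hΨ2 ψ hψ ψ₀ hψ₀ x x.2.1 x.2.2) S' (fun 𝔞 => c (𝔞 : Ideal (𝓞 K)))
  rw [Finset.sum_image (fun ψ hψ ψ' hψ' h => G_inj (hΨ ψ hψ) (hΨ ψ' hψ') h)] at hb
  -- the left hand side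
  have hl : ∑ ψ ∈ Ψ, ‖∑ 𝔞 ∈ S, c 𝔞 * ψ 𝔞‖ ^ 2 =
      ∑ ψ ∈ Ψ, ‖∑ x ∈ S', c (x : Ideal (𝓞 K)) * ((G 𝔮 ψ x : ℂˣ) : ℂ)‖ ^ 2 := by
    refine Finset.sum_congr rfl fun ψ hψ => ?_
    have h1 : ∑ x ∈ S', c (x : Ideal (𝓞 K)) * ((G 𝔮 ψ x : ℂˣ) : ℂ) = ∑ 𝔞 ∈ S, c 𝔞 * ψ 𝔞 := by
      have h2 : ∑ x ∈ S', c (x : Ideal (𝓞 K)) * ((G 𝔮 ψ x : ℂˣ) : ℂ) =
          ∑ x ∈ S', (fun 𝔞 : Ideal (𝓞 K) => c 𝔞 * ψ 𝔞) x :=
        Finset.sum_congr rfl fun x _ => by rw [G_apply (hΨ ψ hψ)]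
      have h5 : ∑ x ∈ S', (fun 𝔞 : Ideal (𝓞 K) => c 𝔞 * ψ 𝔞) x =
          ∑ 𝔞 ∈ S.filter (fun 𝔞 => 𝔞 ∈ Mm 𝔮), c 𝔞 * ψ 𝔞 :=
        Finset.sum_subtype_eq_sum_filter (s := S) (p := fun 𝔞 => 𝔞 ∈ Mm 𝔮)
          (fun 𝔞 : Ideal (𝓞 K) => c 𝔞 * ψ 𝔞)
      rw [h2, h5, Finset.sum_filter]
      refine Finset.sum_congr rfl fun 𝔞 h𝔞 => ?_
      split_ifs with h3
      · rfl
      · have h4 : ψ 𝔞 = 0 := by
          by_contra hcon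
          exact h3 ⟨hS 𝔞 h𝔞, (hΨ ψ hψ 𝔞 (hS 𝔞 h𝔞)).1 hcon⟩
        rw [h4, mul_zero]
    rw [h1]
  rw [hl]
  refine hb.trans ?_
  -- the right hand side
  have hr := rhs S' (cls (pm 𝔮)) (fun x : Mm 𝔮 => ‖c (x : Ideal (𝓞 K))‖)
    (fun x => c (x : Ideal (𝓞 K)) * ((G 𝔮 ψ₀ x : ℂˣ) : ℂ)) (by
      intro x
      rw [norm_mul, G_apply (hΨ ψ₀ hψ₀)]
      exact mul_le_of_le_one_right (norm_nonneg _) (hΨ1 ψ₀ hψ₀ _))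
  have hr2 : ∑ x ∈ S', ∑ y ∈ S'.filter (fun y => cls (pm 𝔮) y = cls (pm 𝔮) x),
      ‖c (x : Ideal (𝓞 K))‖ * ‖c (y : Ideal (𝓞 K))‖ ≤
      ∑ p ∈ (S ×ˢ S).filter (fun p => Pool.Agent.H465.CG.Rel m p.1 p.2), ‖c p.1‖ * ‖c p.2‖ := by
    set Q : Finset (Mm 𝔮 × Mm 𝔮) := (S' ×ˢ S').filter
      (fun p => cls (pm 𝔮) p.2 = cls (pm 𝔮) p.1) with hQ
    have e1 : ∑ x ∈ S', ∑ y ∈ S'.filter (fun y => cls (pm 𝔮) y = cls (pm 𝔮) x),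
        ‖c (x : Ideal (𝓞 K))‖ * ‖c (y : Ideal (𝓞 K))‖ =
        ∑ p ∈ Q, ‖c (p.1 : Ideal (𝓞 K))‖ * ‖c (p.2 : Ideal (𝓞 K))‖ := by
      rw [hQ, Finset.sum_filter, Finset.sum_product]
      refine Finset.sum_congr rfl fun x _ => ?_
      rw [Finset.sum_filter]
    have e2 : ∑ p ∈ Q, ‖c (p.1 : Ideal (𝓞 K))‖ * ‖c (p.2 : Ideal (𝓞 K))‖ =
        ∑ q ∈ Q.image (fun p : Mm 𝔮 × Mm 𝔮 => ((p.1 : Ideal (𝓞 K)), (p.2 : Ideal (𝓞 K)))),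
          ‖c q.1‖ * ‖c q.2‖ := by
      rw [Finset.sum_image]
      intro p _ p' _ h
      obtain ⟨h1, h2⟩ := Prod.ext_iff.1 h
      exact Prod.ext (Subtype.ext h1) (Subtype.ext h2)
    rw [e1, e2]
    refine Finset.sum_le_sum_of_subset_of_nonneg ?_ (fun q _ _ => by positivity)
    intro q hq'
    obtain ⟨p, hp, rfl⟩ := Finset.mem_image.1 hq'
    rw [hQ, Finset.mem_filter, Finset.mem_product] at hp
    obtain ⟨⟨h1, h2⟩, h3⟩ := hp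
    rw [Finset.mem_filter, Finset.mem_product]
    refine ⟨⟨Finset.mem_subtype.1 h1, Finset.mem_subtype.1 h2⟩, ?_⟩
    obtain ⟨a, b, hab⟩ := cls_eq h3.symm
    have h4 := congrArg Subtype.val hab
    rw [Submonoid.coe_mul, Submonoid.coe_mul, pm_coe, pm_coe] at h4
    refine ⟨(a : 𝓞 K), (b : 𝓞 K), a.2.1, b.2.1, ?_, ?_, h4⟩
    · rw [← h𝔮]
      exact a.2.2
    · rw [← h𝔮]
      exact b.2.2
  refine (mul_le_mul_of_nonneg_left (hr.trans hr2) (Nat.cast_nonneg _)).trans ?_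
  exact mul_le_mul_of_nonneg_right hcard' hrhs0

end Pool.Agent.H333.CG

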