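import Pool.Agent.H468.QF.Stm

/-!
# N17U: the unramified places over `17`
-/

set_option autoImplicit false

namespace Pool.Agent.H333.QF

open WithZero Pool.Agent.H468.QF
open Pool.Agent.H743.X17 (LS)

section val

variable {K : Type} [Field K] (w : Valuation K (WithZero (Multiplicative ℤ)))

theorem w_int (n : ℤ) : w (n : K) ≤ 1 := intCast_mem w.integer n

/-- Integers prime to `p` are units at the places over `p`. -/
theorem w_unit {p : ℕ} (hp : p.Prime) (h : w (p : K) < 1) {n : ℤ} (hn : ¬ (p : ℤ) ∣ n) :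
    w (n : K) = 1 := by
  have hcop : IsCoprime (p : ℤ) n :=
    (Prime.coprime_iff_not_dvd (Nat.prime_iff_prime_int.mp hp)).mpr hn
  obtain ⟨a, b, hab⟩ := hcop
  refine le_antisymm (w_int w n) (not_lt.mp fun hlt => ?_)
  have h1 : (a : K) * (p : K) + (b : K) * (n : K) = 1 := by exact_mod_cast congrArg (Int.cast : ℤ → K) hab
  have h2 : w ((a : K) * (p : K) + (b : K) * (n : K)) < 1 := by
    refine lt_of_le_of_lt (w.map_add _ _) (max_lt ?_ ?_)
    · rw [map_mul]
      exact lt_of_le_of_lt (mul_le_of_le_one_left' (w_int w a)) h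
    · rw [map_mul]
      exact lt_of_le_of_lt (mul_le_of_le_one_left' (w_int w b)) hlt
  rw [h1, map_one] at h2
  exact lt_irrefl _ h2

end val

theorem t_N17U (h : S_N17C) : S_N17U := by
  intro K _ w hw u v hu hLS hdvd
  have h17 : Nat.Prime 17 := by norm_num
  have hlt : w ((17 : ℕ) : K) < 1 := by
    have e : ((17 : ℕ) : K) = 17 := by norm_num
    rw [e, hw, ← exp_zero, exp_lt_exp]
    norm_num
  have hlt' : w (17 : K) < 1 := by
    have e : ((17 : ℕ) : K) = 17 := by norm_num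
    rwa [e] at hlt
  obtain ⟨u', rfl⟩ := hdvd
  have hnd : ¬ ((17 : ℕ) : ℤ) ∣ u' := by
    rintro ⟨c, rfl⟩
    have h1 : (17 : ℤ) * 17 ∣ 17 * (((17 : ℕ) : ℤ) * c) := ⟨c, by push_cast; ring⟩
    have h2 := hu 17 h1
    rw [Int.isUnit_iff] at h2
    omega
  have hw' : w (u' : K) = 1 := w_unit w h17 hlt hnd
  have hwu : w (((17 * u' : ℤ)) : K) = exp (-1 : ℤ) := by
    push_cast
    rw [map_mul, hw, hw', mul_one]
  have hu0 : (((17 * u' : ℤ)) : K) ≠ 0 := by
    intro h0
    rw [h0, map_zero] at hwu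
    exact exp_ne_zero hwu.symm
  obtain ⟨s, t, ht, hst⟩ := h K w hlt' _ v hu0 hLS
  have h1 := congrArg w hst
  rw [map_mul, hwu, map_pow, w.map_one_add_of_lt ht] at h1
  have hs0 : w s ≠ 0 := by
    intro h0
    rw [h0, zero_pow (by norm_num), mul_zero] at h1
    exact zero_ne_one h1
  rw [← exp_log hs0, ← exp_nsmul, ← exp_add, ← exp_zero, exp_inj] at h1
  rw [two_nsmul] at h1
  omega

end Pool.Agent.H333.QF
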