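import Pool.Agent.H676.So.Stm

set_option autoImplicit false
set_option linter.unusedSectionVars false

/-! # Project WS: the pseudo-expectation from the pseudo-density -/

namespace Pool.Agent.H333.WS

open Finset Pool.Agent.W893.PR Pool.Agent.H676.GI Pool.Agent.H676.GI.Blk Pool.Agent.H676.So

section pexp

variable {F : Type} [Fintype F] [DecidableEq F] {d : ℕ} {V : Type} [Fintype V]
  {sh : (F → F2 d) → V → V} {fb : V → Finset F}

open Classical in
/-- The point of a shift. -/
noncomputable def pt (sh : (F → F2 d) → V → V) (t : F → F2 d) (q : V × V) : ℝ :=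
  if sh t q.1 = q.2 then 1 else 0

/-- The value of a monomial. -/
noncomputable def mv (sh : (F → F2 d) → V → V) (m : (V × V) →₀ ℕ) (t : F → F2 d) : ℝ :=
  ∏ q ∈ m.support, pt sh t q ^ m q

/-- The variables of a monomial. -/
def ms (fb : V → Finset F) (m : (V × V) →₀ ℕ) : Finset F := m.support.biUnion fun q => fb q.1

theorem ms_card (hfb : ∀ u, (fb u).card ≤ 1) (m : (V × V) →₀ ℕ) :
    (ms fb m).card ≤ m.sum fun _ e => e := by
  unfold ms
  refine (Finset.card_biUnion_le).trans ?_
  unfold Finsupp.sum
  refine Finset.sum_le_sum fun q hq => (hfb _).trans ?_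
  exact Nat.one_le_iff_ne_zero.mpr (Finsupp.mem_support_iff.mp hq)

theorem pt_congr (hloc : ∀ t t' u, (∀ x ∈ fb u, t x = t' x) → sh t u = sh t' u)
    {t t' : F → F2 d} {q : V × V} (h : ∀ x ∈ fb q.1, t x = t' x) : pt sh t q = pt sh t' q := by
  unfold pt
  rw [hloc t t' q.1 h]

theorem mv_congr (hloc : ∀ t t' u, (∀ x ∈ fb u, t x = t' x) → sh t u = sh t' u)
    {t t' : F → F2 d} {m : (V × V) →₀ ℕ} (h : ∀ x ∈ ms fb m, t x = t' x) :
    mv sh m t = mv sh m t' := by
  unfold mv
  refine Finset.prod_congr rfl fun q hq => ?_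
  rw [pt_congr hloc fun x hx => h x (Finset.mem_biUnion.mpr ⟨q, hq, hx⟩)]

/-- The pseudo-expectation. -/
noncomputable def EX (sh : (F → F2 d) → V → V) (D : (F → F2 d) → ℝ) :
    MvPolynomial (V × V) ℝ →ₗ[ℝ] ℝ where
  toFun p := ∑ t, D t * MvPolynomial.eval (pt sh t) p
  map_add' p q := by
    rw [← Finset.sum_add_distrib]
    refine Finset.sum_congr rfl fun t _ => ?_
    rw [map_add, mul_add]
  map_smul' c p := by
    rw [RingHom.id_apply, smul_eq_mul, Finset.mul_sum]
    refine Finset.sum_congr rfl fun t _ => ?_
    rw [MvPolynomial.smul_eval]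
    ring

theorem EX_apply (D : (F → F2 d) → ℝ) (p : MvPolynomial (V × V) ℝ) :
    EX sh D p = ∑ t, D t * MvPolynomial.eval (pt sh t) p := rfl

theorem eval_mv (t : F → F2 d) (p : MvPolynomial (V × V) ℝ) :
    MvPolynomial.eval (pt sh t) p = ∑ m ∈ p.support, p.coeff m * mv sh m t :=
  MvPolynomial.eval_eq _ _

theorem EX_zero (D : (F → F2 d) → ℝ) {p q : MvPolynomial (V × V) ℝ}
    (h : ∀ t, MvPolynomial.eval (pt sh t) p = 0) : EX sh D (p * q) = 0 := by
  rw [EX_apply]
  refine Finset.sum_eq_zero fun t _ => ?_
  rw [map_mul, h t, zero_mul, mul_zero]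

end pexp

theorem t_PEXP : S_PEXP := by
  classical
  intro F _ _ M d Q b k V _ G H sh fb hbij hfb hloc hadj D hD1 hsq hzero
  refine ⟨EX sh D, ?_, ?_, ?_⟩
  · rw [EX_apply]
    simp only [map_one, mul_one]
    exact hD1
  · intro p hp
    rw [EX_apply]
    have h1 := hsq p.support (fun m t => p.coeff m.1 * mv sh m.1 t) (by
      rintro ⟨m, hm⟩
      refine ⟨ms fb m, ((ms_card hfb m).trans (MvPolynomial.le_totalDegree hm)).trans hp, ?_⟩
      intro t t' h
      simp only
      rw [mv_congr hloc h])
    refine h1.trans_eq (Finset.sum_congr rfl fun t _ => ?_)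
    rw [map_pow, eval_mv, Finset.sum_coe_sort p.support (fun m => p.coeff m * mv sh m t)]
  · intro p hp q hpq
    rcases hp with ⟨u, rfl⟩ | ⟨v, rfl⟩ | ⟨r, rfl⟩ | ⟨u, u', v, v', hn, rfl⟩
    · refine EX_zero D fun t => ?_
      rw [map_sub, map_sum, map_one]
      simp only [MvPolynomial.eval_X, pt]
      rw [Finset.sum_ite_eq]
      simp
    · refine EX_zero D fun t => ?_
      rw [map_sub, map_sum, map_one]
      simp only [MvPolynomial.eval_X, pt]
      rw [(hbij t).sum_comp (fun w => if w = v then (1 : ℝ) else 0), Finset.sum_ite_eq']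
      simp
    · refine EX_zero D fun t => ?_
      rw [map_sub, map_pow]
      simp only [MvPolynomial.eval_X, pt]
      split_ifs <;> norm_num
    · have hdeg : (MvPolynomial.X (u, v) * MvPolynomial.X (u', v') :
          MvPolynomial (V × V) ℝ).totalDegree = 2 := by
        rw [MvPolynomial.totalDegree_mul_of_isDomain (MvPolynomial.X_ne_zero _)
          (MvPolynomial.X_ne_zero _), MvPolynomial.totalDegree_X, MvPolynomial.totalDegree_X]
      rw [hdeg] at hpq
      rw [EX_apply]
      have h1 : ∀ t : F → F2 d, D t * MvPolynomial.eval (pt sh t)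
          (MvPolynomial.X (u, v) * MvPolynomial.X (u', v') * q) =
          ∑ m ∈ q.support, D t * (pt sh t (u, v) * pt sh t (u', v') * (q.coeff m * mv sh m t)) := by
        intro t
        rw [map_mul, map_mul, MvPolynomial.eval_X, MvPolynomial.eval_X, eval_mv, Finset.mul_sum,
          Finset.mul_sum]
      rw [Finset.sum_congr rfl fun t _ => h1 t, Finset.sum_comm]
      refine Finset.sum_eq_zero fun m hm => ?_
      refine hzero (fb u ∪ fb u' ∪ ms fb m)
        (fun t => pt sh t (u, v) * pt sh t (u', v') * (q.coeff m * mv sh m t)) ?_ ?_ ?_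
      · have h2 := Finset.card_union_le (fb u ∪ fb u') (ms fb m)
        have h3 := Finset.card_union_le (fb u) (fb u')
        have h4 := (ms_card hfb m).trans (MvPolynomial.le_totalDegree hm)
        have h5 := hfb u
        have h6 := hfb u'
        omega
      · intro t t' h
        simp only
        rw [mv_congr hloc fun x hx => h x (Finset.mem_union_right _ hx),
          pt_congr (q := (u, v)) hloc fun x hx =>
            h x (Finset.mem_union_left _ (Finset.mem_union_left _ hx)),
          pt_congr (q := (u', v')) hloc fun x hx =>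
            h x (Finset.mem_union_left _ (Finset.mem_union_right _ hx))]
      · intro t ht
        by_contra hne
        have h2 : pt sh t (u, v) ≠ 0 := fun h => hne (by rw [h]; ring)
        have h3 : pt sh t (u', v') ≠ 0 := fun h => hne (by rw [h]; ring)
        have h4 : sh t u = v := by
          by_contra h
          exact h2 (if_neg h)
        have h5 : sh t u' = v' := by
          by_contra h
          exact h3 (if_neg h)
        refine hn ⟨?_, ?_⟩
        · rw [← h4, ← h5]
          exact ((hbij t).1.eq_iff).symm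
        · rw [← h4, ← h5]
          exact hadj t u u' _ (fun x hx => Finset.mem_union_left _ (Finset.mem_union_left _ hx))
            (fun x hx => Finset.mem_union_left _ (Finset.mem_union_right _ hx)) ht

end Pool.Agent.H333.WS
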